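import Pool.Agent.H482R3.EA.Stm

set_option autoImplicit false

/-! Project EA, task LS: Lemma S on states. -/

namespace Pool.Agent.H837R3.EA

open Pool.Agent.H482R3.EA
open Pool.Agent.H482R3.EA.NF

/-- the state after a prolongation on a line `m` not in `D(h')` -/
theorem LS_up (hR : S_REP) (hN : S_UPN) (hM : S_UPM) (S : Sys) (h' : NF S) (m : S.Ln)
    (y : S.L m) (q : S.P) (hD : ¬ InD S m (NF.st h')) (hq : S.I q m)
    (hy1 : (∀ r, S.I r m → ¬ Near S r (NF.st h')) → ∀ c : ℤ, y ≠ S.x m q ^ c)
    (hy2 : ∀ r, S.I r m → Near S r (NF.st h') → ∀ b c : ℤ, y ≠ S.x m r ^ b * S.x m q ^ c) :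
    InD S m (NF.st (NF.up h' m y)) ∧ NF.st (NF.up h' m y) ≠ St.pt q := by
  classical
  by_cases hnear : ∀ r, S.I r m → ¬ Near S r (NF.st h')
  · rw [hN S h' m y hnear]
    have hy : y ≠ 1 := by
      have := hy1 hnear 0
      rwa [zpow_zero] at this
    have key : ∀ (s : S.P) (c : ℤ), s = q → y = S.x m s ^ c → False := by
      rintro s c rfl hh
      exact hy1 hnear c hh
    unfold NF.att
    rw [if_neg hy]
    by_cases H : ∃ (s : S.P) (c : ℤ), S.I s m ∧ y = S.x m s ^ c
    · rw [dif_pos H]
      refine ⟨H.choose_spec.choose_spec.1, ?_⟩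
      intro hh
      have hh' : H.choose = q := by
        injection hh
      exact key _ _ hh' H.choose_spec.choose_spec.2
    · rw [dif_neg H]
      refine ⟨rfl, ?_⟩
      intro hh
      cases hh
  · push Not at hnear
    obtain ⟨r, hr, hrn⟩ := hnear
    obtain ⟨m', hm', hrm'⟩ : ∃ m', InD S m' (NF.st h') ∧ S.I r m' := by
      revert hrn
      generalize NF.st h' = s
      intro hrn
      cases s with
      | none => exact hrn.elim
      | ln l => exact ⟨l, rfl, hrn⟩
      | pt p =>
        obtain ⟨l, h1, h2⟩ := hrn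
        exact ⟨l, h1, h2⟩
    rw [hM S h' m y r m' hD hr hrn hm' hrm']
    obtain ⟨e1, -, -, e4, -⟩ := hR S m r hr y
    have ht : NF.rep S m r y ≠ 1 := by
      intro hh
      obtain ⟨b, hb⟩ := e4.1 hh
      apply hy2 r hr hrn b 0
      rw [zpow_zero, mul_one]
      exact hb
    have key : ∀ (s : S.P) (b c : ℤ), s = q →
        NF.rep S m r y = S.x m r ^ b * S.x m s ^ c → False := by
      rintro s b c rfl hh
      apply hy2 r hr hrn (NF.cf S m r y + b) c
      rw [zpow_add, mul_assoc, ← hh]
      exact e1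
    unfold NF.attM
    simp only []
    rw [if_neg ht]
    by_cases H : ∃ (s : S.P) (b c : ℤ), S.I s m ∧ s ≠ r ∧
        NF.rep S m r y = S.x m r ^ b * S.x m s ^ c
    · rw [dif_pos H]
      refine ⟨H.choose_spec.choose_spec.choose_spec.1, ?_⟩
      intro hh
      have hh' : H.choose = q := by
        injection hh
      exact key _ _ _ hh' H.choose_spec.choose_spec.choose_spec.2.2
    · rw [dif_neg H]
      refine ⟨rfl, ?_⟩
      intro hh
      cases hh

theorem t_LS (hR : S_REP) (_hU : S_UNI) (hN : S_UPN) (hM : S_UPM) : S_LS := by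
  classical
  intro S h m q a hV hD hq hst
  cases h with
  | one => exact hD.elim
  | pt h' p n =>
    obtain ⟨hV', hn, hnp⟩ := hV
    have hpm : S.I p m := hD
    have hpq : p ≠ q := by
      rintro rfl
      exact hst rfl
    have e : NF.act (NF.pt h' p n) m (S.x m q ^ a) =
        NF.up h' m (S.x m p ^ n * S.x m q ^ a) := by
      show (if S.I p m then NF.up h' m (S.x m p ^ n * S.x m q ^ a) else
        NF.up (NF.pt h' p n) m (S.x m q ^ a)) = _
      rw [if_pos hpm]
    rw [e]
    have hD' : ¬ InD S m (NF.st h') := by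
      intro hh
      apply hnp
      revert hh
      generalize NF.st h' = s
      intro hh
      cases s with
      | none => exact hh.elim
      | ln l =>
        have : m = l := hh
        subst this
        exact hpm
      | pt r => exact ⟨m, hh, hpm⟩
    refine LS_up hR hN hM S h' m _ q hD' hq ?_ ?_
    · intro _ c hc
      have : S.x m p ^ n * S.x m q ^ (a - c) = 1 := by
        rw [zpow_sub, ← mul_assoc, hc, mul_inv_cancel]
      exact hn (S.L1 m p q n (a - c) hpm hq hpq this).1
    · intro r hr hrn b c hc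
      have hpr : p ≠ r := by
        rintro rfl
        exact hnp hrn
      have h1 : S.x m p ^ n * S.x m q ^ (a - c) = S.x m r ^ b := by
        rw [zpow_sub, ← mul_assoc, hc, mul_inv_cancel_right]
      by_cases hqr : q = r
      · subst hqr
        have : S.x m p ^ n * S.x m q ^ (a - c - b) = 1 := by
          rw [zpow_sub _ (a - c) b, ← mul_assoc, h1, mul_inv_cancel]
        exact hn (S.L1 m p q n (a - c - b) hpm hq hpq this).1
      · have : S.x m p ^ n * S.x m q ^ (a - c) * S.x m r ^ (-b) = 1 := by
          rw [h1, zpow_neg, mul_inv_cancel]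
        exact hn (S.L2 m p q r n (a - c) (-b) hpm hq hr hpq hqr hpr this).1
  | ln h' l t0 =>
    have hl : m = l := hD
    subst hl
    obtain ⟨hV', hD', hA, hB⟩ := hV
    have e : NF.act (NF.ln h' m t0) m (S.x m q ^ a) = NF.up h' m (t0 * S.x m q ^ a) := by
      show (if e : m = m then NF.up h' m ((e ▸ t0) * S.x m q ^ a) else
        NF.up (NF.ln h' m t0) m (S.x m q ^ a)) = _
      rw [dif_pos rfl]
    rw [e]
    refine LS_up hR hN hM S h' m _ q hD' hq ?_ ?_
    · intro hno c hc
      apply hB hno q (c - a) hq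
      rw [zpow_sub, ← hc, mul_inv_cancel_right]
    · intro r hr hrn b c hc
      apply (hA r hr hrn).2 q b (c - a) hq
      rw [zpow_sub, ← mul_assoc, ← hc, mul_inv_cancel_right]

end Pool.Agent.H837R3.EA
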